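import Mathlib
import Pool.Agent.H15.Rud.Union6
import Pool.Agent.H34.Rud6.Final6

set_option autoImplicit false

/-!
# MP_1b1194_nt: all shifts `q`, and `p ≤ 6`

For every `q` there are infinitely many `n` (at least a constant times `N ^ (1 / 3)` of them up to
`N`) such that `(2 n - p)! / (n! (n + q)!)` is an integer for every `p ≤ 6`.

The numbers `n` are values of the chain `120 n = (x - 3) (x - 5) (x + 8)`,
`120 (n - 1) = x (x - 7) (x + 7)`, `120 (n - 2) = (x + 3) (x + 5) (x - 8)`.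
-/

namespace Pool.Agent.Results.MP_1b1194_nt.ShiftSix

open Finset Real

/-- The union bound, in the form used by the final count. -/
theorem union : Pool.Agent.H34.Rud6.Union6 := by
  obtain ⟨A, l0, hA, h⟩ := Pool.Agent.H15.Rud.union6
  refine ⟨A, l0, hA, ?_⟩
  intro Y W T hT hl0 hY hT0 hTW hW hYW
  obtain ⟨Z0, hZ0⟩ := h Y W T hT hl0 hY hT0 hTW hW hYW
  refine ⟨0, Z0, ?_⟩
  intro Z' hZ' _ P hP
  have h1 := hZ0 Z' hZ' P hP
  have h2 : (0 : ℝ) ≤ ((A * Z' : ℕ) : ℝ) := Nat.cast_nonneg _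
  unfold Pool.Agent.H15.Rud.gg at h1
  linarith

/-- **Main theorem.** -/
theorem result (q : ℕ) : ∃ c : ℝ, 0 < c ∧ ∃ N0 : ℕ, ∀ N : ℕ, N0 ≤ N →
    c * (N : ℝ) ^ (1 / 3 : ℝ) ≤
      (((Finset.Icc 1 N).filter (fun n : ℕ => ∀ p ≤ 6, p ≤ 2 * n ∧
        n.factorial * (n + q).factorial ∣ (2 * n - p).factorial)).card : ℝ) :=
  Pool.Agent.H34.Rud6.final6 union q

end Pool.Agent.Results.MP_1b1194_nt.ShiftSix
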